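import Pool.Agent.Helper63.Sey3.Goals

/-!
# Project SEY3, packet TM: three classes are missing with constant probability
-/

set_option autoImplicit false

namespace Pool.Agent.Helper2.Sey3

open Pool.Agent.Helper41.Girth4 (Pr)
open Pool.Agent.Helper41.Girth4
open Pool.Agent.Helper8.Sey (near NearBd near_three)
open Pool.Agent.Helper63.Sey3

theorem exp_le {x : ℝ} (h0 : 0 ≤ x) (h1 : x ≤ 1 / 2) : Real.exp (-(2 * x)) ≤ 1 - x := by
  have h2 : 1 + 2 * x ≤ Real.exp (2 * x) := by
    have := Real.add_one_le_exp (2 * x)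
    linarith
  have h3 : 0 < Real.exp (-(2 * x)) := Real.exp_pos _
  have h4 : Real.exp (2 * x) * Real.exp (-(2 * x)) = 1 := by
    rw [← Real.exp_add]
    simp
  nlinarith

theorem exp_pow_le {x y : ℝ} {n : ℕ} (h0 : 0 ≤ x) (h1 : x ≤ 1 / 2) (h : 2 * x * n ≤ y) :
    Real.exp (-y) ≤ (1 - x) ^ n := by
  calc Real.exp (-y) ≤ Real.exp (n * (-(2 * x))) := by
        apply Real.exp_le_exp.2
        linarith
    _ = Real.exp (-(2 * x)) ^ n := by rw [Real.exp_nat_mul]
    _ ≤ (1 - x) ^ n := pow_le_pow_left₀ (Real.exp_pos _).le (exp_le h0 h1) n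

section

variable {V : Type} (P : Sy V)

theorem c0_setpm (ω : P.Om) (π : V → Equiv.Perm (Fin P.q)) : P.c0 (P.setpm ω π) = P.c0 ω := rfl

theorem Gd_setpm (κ : ℕ) (ω : P.Om) (π : V → Equiv.Perm (Fin P.q)) (v : V) :
    P.Gd κ (P.setpm ω π) v ↔ P.Gd κ ω v := Iff.rfl

theorem rd_setpm (ω : P.Om) (π : V → Equiv.Perm (Fin P.q)) (v : V) :
    P.rd (P.setpm ω π v) = P.rd (ω v) := rfl

/-- the colour of a vertex which is uncoloured in round 0 is its proposal -/
theorem col_eq_pk (ω : P.Om) (u : V) (h0 : P.c0 ω u = none) {x : Fin P.q}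
    (h : P.col ω u = some x) : P.pk ω (P.st ω (P.rd (ω u))) u = x := by
  have key : ∀ n : ℕ, P.st ω n u = none ∨ P.pk ω (P.st ω (P.rd (ω u))) u = x ∨
      ∃ y, y ≠ x ∧ P.st ω n u = some y := by
    intro n
    induction n with
    | zero => exact Or.inl h0
    | succ n ih =>
      rcases ih with ih | ih | ⟨y, hy, ih⟩
      · rcases hs : P.st ω (n + 1) u with _ | y
        · exact Or.inl rfl
        · rw [P.st_succ] at hs
          obtain ⟨h1, h2, -, -⟩ := P.stp_some ω ih hs
          by_cases hyx : y = x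
          · refine Or.inr (Or.inl ?_)
            rw [h1, h2, hyx]
          · exact Or.inr (Or.inr ⟨y, hyx, rfl⟩)
      · exact Or.inr (Or.inl ih)
      · exact Or.inr (Or.inr ⟨y, hy, P.st_eq_some ω (Nat.le_succ n) ih⟩)
  unfold Sy.col at h
  rcases key P.Z with h1 | h1 | ⟨y, hy, h1⟩
  · rw [h1] at h
    exact absurd h (by simp)
  · exact h1
  · rw [h1] at h
    exact absurd (Option.some.inj h) hy

/-- the colour of a vertex which is coloured in round 0 -/
theorem col_eq_co (ω : P.Om) (u : V) {y : Fin P.q} (h0 : P.c0 ω u = some y) {x : Fin P.q}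
    (h : P.col ω u = some x) : x = y ∧ P.al (ω u) ∧ P.co (ω u) = y := by
  have h1 : P.st ω P.Z u = some y := P.st_eq_some ω (Nat.zero_le _) (i := 0) h0
  have h2 : P.col ω u = some y := h1
  have h3 : x = y := Option.some.inj (h.symm.trans h2)
  refine ⟨h3, ?_⟩
  unfold Sy.c0 at h0
  split_ifs at h0 with h4
  exact ⟨h4.1, Option.some.inj h0⟩

variable [Fintype V]

open Classical in
/-- the neighbours in near parts -/
noncomputable def Mn (w : V) : Finset V :=
  Finset.univ.filter fun u => P.H.Adj w u ∧ near P.K (P.part w) (P.part u)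

theorem card_Mn (w : V) : (Mn P w).card ≤ 3 * P.D := by
  classical
  obtain ⟨T, hT, hT2⟩ := near_three P.K (P.part w)
  have hsub : Mn P w ⊆ (T.filter fun m => m < P.K ∧ near P.K (P.part w) m).biUnion fun m =>
      Finset.univ.filter fun u => P.H.Adj w u ∧ P.part u = m := by
    intro u hu
    obtain ⟨-, h1, h2⟩ := Finset.mem_filter.1 hu
    rw [Finset.mem_biUnion]
    exact ⟨P.part u, Finset.mem_filter.2 ⟨hT2 _ (P.part_lt u) h2, P.part_lt u, h2⟩,
      Finset.mem_filter.2 ⟨Finset.mem_univ _, h1, rfl⟩⟩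
  refine (Finset.card_le_card hsub).trans ?_
  refine (Finset.card_biUnion_le_card_mul _ _ P.D (fun m hm => ?_)).trans
    (Nat.mul_le_mul_right _ ((Finset.card_le_card (Finset.filter_subset _ _)).trans hT))
  obtain ⟨-, h1, h2⟩ := Finset.mem_filter.1 hm
  have h3 := P.hnear.2 w m h1 h2
  rwa [Nat.card_eq_fintype_card, Fintype.card_subtype] at h3

open Classical in
/-- the dangerous colours -/
noncomputable def Bd (g : ZMod P.N) (u : V) : Finset (Fin P.q) :=
  Finset.univ.filter fun x => (x : ℕ) < P.qm ∧ (P.cl (P.part u) x = g - 1 ∨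
    P.cl (P.part u) x = g ∨ P.cl (P.part u) x = g + 1)

omit [Fintype V] in
theorem card_Bd (g : ZMod P.N) (u : V) : (Bd P g u).card ≤ 3 := by
  classical
  have h1 : (Bd P g u).card ≤ ({g - 1, g, g + 1} : Finset (ZMod P.N)).card := by
    refine Finset.card_le_card_of_injOn (fun x => P.cl (P.part u) x) ?_ ?_
    · intro x hx
      obtain ⟨-, -, h⟩ := Finset.mem_filter.1 (Finset.mem_coe.1 hx)
      simp only [Finset.coe_insert, Finset.coe_singleton, Set.mem_insert_iff,
        Set.mem_singleton_iff]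
      exact h
    · intro x hx y hy h
      obtain ⟨-, hx1, -⟩ := Finset.mem_filter.1 (Finset.mem_coe.1 hx)
      obtain ⟨-, hy1, -⟩ := Finset.mem_filter.1 (Finset.mem_coe.1 hy)
      exact Fin.ext (P.cl_inj (P.part_lt u) (P.part_lt u) hx1 hy1 h).2
  exact h1.trans Finset.card_le_three

theorem Tm_of (w : V) {a : ℕ} (ha : a < P.qm) (ω : P.Om)
    (h : ∀ u ∈ Mn P w, ∀ x, P.col ω u = some x → x ∉ Bd P (P.cl (P.part w) a) u) :
    P.Tm ω w (P.cl (P.part w) a) := by
  classical
  have hq := P.qm_pos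
  intro u hu
  have key : ∀ g' : ZMod P.N, (g' = P.cl (P.part w) a - 1 ∨ g' = P.cl (P.part w) a ∨
      g' = P.cl (P.part w) a + 1) → (∃ m < P.K, ∃ b < P.qm, near P.K (P.part w) m ∧
        g' = P.cl m b) → ¬ P.isC ω u g' := by
    rintro g' hg' ⟨m, hm, b, hb, hn, he⟩ ⟨x, hx1, hx2, hx3⟩
    have h1 := (P.cl_inj (P.part_lt u) hm hx2 hb (hx3.trans he)).1
    refine h u (Finset.mem_filter.2 ⟨Finset.mem_univ _, hu, by rw [h1]; exact hn⟩) x hx1
      (Finset.mem_filter.2 ⟨Finset.mem_univ _, hx2, ?_⟩)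
    rw [hx3]
    exact hg'
  refine ⟨key _ (Or.inl rfl) ?_, key _ (Or.inr (Or.inl rfl)) ?_, key _ (Or.inr (Or.inr rfl)) ?_⟩
  · obtain ⟨m, hm, b, hb, h1, h2, -⟩ := P.cand (P.part_lt w) ha
    exact ⟨m, hm, b, hb, h1, h2⟩
  · exact ⟨P.part w, P.part_lt w, a, ha, Or.inl rfl, rfl⟩
  · obtain ⟨m, hm, b, hb, h1, h2⟩ := P.add_part (P.part_lt w) ha
    refine ⟨m, hm, b, hb, ?_, h1⟩
    unfold near
    omega

end

theorem goalTM : GoalPICK → GoalSEL → GoalRES → GoalSTL → GoalMISS → GoalTM := by
  classical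
  intro hPICK hSEL hRES hSTL hMISS c hc
  refine ⟨Real.exp (-(18 / c)) * (Real.exp (-9) / 2), max 6 ⌈6 / c⌉₊, by positivity, ?_⟩
  intro V _ P κ e0 hD hκ he0 he1 hGd w a ha
  have hD6 : 6 ≤ P.D := (le_max_left _ _).trans hD
  have hDc : 6 / c ≤ P.D := (Nat.le_ceil _).trans (by exact_mod_cast (le_max_right _ _).trans hD)
  have hκ6 : (6 : ℝ) ≤ κ := by
    rw [div_le_iff₀ hc] at hDc
    linarith
  have hκ0 : (0 : ℝ) < κ := by linarith
  have hκ1 : 1 ≤ κ := by
    have : (1 : ℝ) ≤ κ := by linarith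
    exact_mod_cast this
  have hqD : (P.D : ℝ) ≤ P.q := by exact_mod_cast P.D_le_q
  have hDR : (6 : ℝ) ≤ P.D := by exact_mod_cast hD6
  have hq0 : (0 : ℝ) < P.q := by linarith
  set g : ZMod P.N := P.cl (P.part w) a with hg
  set M := Mn P w with hM
  let G : P.Om → Prop := fun ω => ∀ u ∈ M, P.Gd κ ω u ∧ ¬ (P.al (ω u) ∧ P.co (ω u) ∈ Bd P g u)
  let E : P.Om → Prop := fun ω => ∀ u ∈ M, ∀ x, P.col ω u = some x → x ∉ Bd P g u
  have hGs : ∀ ω π, G ω → G (P.setpm ω π) := fun ω π h => h
  -- the probability of `G`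
  have hPG : Real.exp (-9) / 2 ≤ Pr G := by
    have h1 : Real.exp (-9) ≤ Pr (fun ω : P.Om => ∀ u ∈ M,
        ¬ (P.al (ω u) ∧ P.co (ω u) ∈ Bd P g u)) := by
      refine le_trans ?_ (hSEL V P.Lab M P.idx (fun u ω => P.al (ω u) ∧ P.co (ω u) ∈ Bd P g u)
        (3 / (2 * P.q)) (3 * P.D) (card_Mn P w) (P.hidx.injOn) (by positivity) ?_ ?_ ?_)
      · refine exp_pow_le (by positivity) ?_ ?_
        · rw [div_le_iff₀ (by positivity)]
          linarith
        · push_cast
          rw [show 2 * (3 / (2 * (P.q : ℝ))) * (3 * P.D) = 9 * (P.D / P.q) by field_simp; ring]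
          have : (P.D : ℝ) / P.q ≤ 1 := by rw [div_le_one hq0]; exact hqD
          linarith
      · rw [div_le_iff₀ (by positivity)]
        linarith
      · intro i _ ω ω' h
        rw [h i fun _ => le_rfl]
        exact id
      · intro i _ ω
        have e1 : Pr (fun l : P.Lab => P.al ((Function.update ω i l) i) ∧
            P.co ((Function.update ω i l) i) ∈ Bd P g i) =
            Pr (fun z : Bool × Fin P.q => z.1 = true ∧ z.2 ∈ Bd P g i) := by
          rw [← Pr_fst (β := (Fin P.Z × Equiv.Perm (Fin P.q)) × (Fin P.J → Fin P.L) ×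
            (Fin P.qm × Fin P.J)) (fun z : Bool × Fin P.q => z.1 = true ∧ z.2 ∈ Bd P g i)]
          apply Pr_congr
          intro l
          rw [Function.update_self]
          exact Iff.rfl
        rw [e1, Pr_prod (fun z : Bool => z = true) (fun z : Fin P.q => z ∈ Bd P g i),
          Pr_eq_card (fun z : Bool => z = true), Pr_eq_card (fun z : Fin P.q => z ∈ Bd P g i)]
        have h3 : ((Finset.univ.filter fun z : Fin P.q => z ∈ Bd P g i).card : ℝ) ≤ 3 := by
          have := card_Bd P g i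
          rw [Finset.filter_mem_eq_inter, Finset.univ_inter]
          exact_mod_cast this
        have h4 : ((Finset.univ.filter fun z : Bool => z = true).card : ℝ) = 1 := by
          norm_cast
        rw [h4, Fintype.card_bool, Fintype.card_fin, div_mul_div_comm, one_mul]
        push_cast
        exact div_le_div_of_nonneg_right h3 (by positivity)
    have h2 : Pr (fun ω : P.Om => ∃ u ∈ M, ¬ P.Gd κ ω u) ≤ Real.exp (-9) / 2 := by
      refine (Pr_exists_le M fun u (ω : P.Om) => ¬ P.Gd κ ω u).trans ?_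
      refine (Finset.sum_le_sum fun u _ => hGd u).trans ?_
      rw [Finset.sum_const, nsmul_eq_mul]
      refine le_trans (mul_le_mul_of_nonneg_right ?_ he0) he1
      exact_mod_cast card_Mn P w
    have h3 : Pr (fun ω : P.Om => ∀ u ∈ M, ¬ (P.al (ω u) ∧ P.co (ω u) ∈ Bd P g u)) ≤
        Pr G + Pr (fun ω : P.Om => ∃ u ∈ M, ¬ P.Gd κ ω u) := by
      refine le_trans (Pr_mono fun ω h => ?_) (Pr_or_le _ _)
      by_cases hh : ∃ u ∈ M, ¬ P.Gd κ ω u
      · exact Or.inr hh
      · push Not at hh
        exact Or.inl fun u hu => ⟨hh u hu, h u hu⟩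
    linarith
  -- the conditional probability of `E`
  have hPE : ∀ ω, G ω → Real.exp (-(18 / c)) ≤
      Pr (fun π : V → Equiv.Perm (Fin P.q) => E (P.setpm ω π)) := by
    intro ω hG
    set b : ℕ := ∑ u, P.idx u with hb
    have hbu : ∀ u, P.idx u < b + 1 := fun u =>
      Nat.lt_succ_of_le (Finset.single_le_sum (fun _ _ => Nat.zero_le _) (Finset.mem_univ u))
    let rk : V → ℕ := fun u => P.rd (ω u) * (b + 1) + P.idx u
    let hit : V → (V → Equiv.Perm (Fin P.q)) → Prop := fun u π =>
      P.c0 ω u = none ∧ P.pk (P.setpm ω π) (P.st (P.setpm ω π) (P.rd (ω u))) u ∈ Bd P g u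
    have hrk : ∀ x i, P.rd (ω x) < P.rd (ω i) → rk x ≤ rk i := by
      intro x i h
      have h1 := hbu x
      have h2 : (P.rd (ω x) + 1) * (b + 1) ≤ P.rd (ω i) * (b + 1) := Nat.mul_le_mul_right _ h
      have h3 : (P.rd (ω x) + 1) * (b + 1) = P.rd (ω x) * (b + 1) + (b + 1) := by ring
      change P.rd (ω x) * (b + 1) + P.idx x ≤ P.rd (ω i) * (b + 1) + P.idx i
      omega
    have hsel := hSEL V (Equiv.Perm (Fin P.q)) M rk hit (3 / κ) (3 * P.D) (card_Mn P w) ?_
      (by positivity) ?_ ?_ ?_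
    · refine le_trans (le_trans ?_ hsel) (Pr_mono fun π h => ?_)
      · refine exp_pow_le (by positivity) ?_ ?_
        · rw [div_le_iff₀ hκ0]
          linarith
        · push_cast
          rw [show 2 * (3 / (κ : ℝ)) * (3 * P.D) = 18 * (P.D / κ) by ring, div_eq_mul_one_div 18 c]
          have : (P.D : ℝ) / κ ≤ 1 / c := by
            rw [div_le_div_iff₀ hκ0 hc]
            linarith
          linarith
      · intro u hu x hx
        rcases h0 : P.c0 ω u with _ | y
        · have h1 := col_eq_pk P (P.setpm ω π) u h0 hx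
          have h2 := h u hu
          rw [← h1]
          exact fun h3 => h2 ⟨h0, h3⟩
        · obtain ⟨h1, h2, h3⟩ := col_eq_co P (P.setpm ω π) u h0 hx
          rw [h1, ← h3]
          exact fun h4 => (hG u hu).2 ⟨h2, h4⟩
    · intro u _ u' _ h
      apply P.hidx
      have h1 : ∀ v, rk v % (b + 1) = P.idx v := by
        intro v
        change (P.rd (ω v) * (b + 1) + P.idx v) % (b + 1) = P.idx v
        rw [Nat.add_comm, Nat.add_mul_mod_self_right, Nat.mod_eq_of_lt (hbu v)]
      rw [← h1 u, ← h1 u', h]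
    · rw [div_le_iff₀ hκ0]
      linarith
    · rintro i _ π π' h ⟨h0, h1⟩
      have h2 := hSTL V P ω π π' (P.rd (ω i)) fun x hx => h x fun _ => hrk x i hx
      refine ⟨h0, ?_⟩
      rw [← h2.2 i (h i fun _ => le_rfl)]
      exact h1
    · intro i hi π
      by_cases h0 : P.c0 ω i = none
      · set s := P.st (P.setpm ω π) (P.rd (ω i)) with hs
        have h1 : ∀ l : Equiv.Perm (Fin P.q), hit i (Function.update π i l) →
            Pool.Agent.Helper8.Sey.Sys.pick l (P.used s i) ∈ Bd P g i := by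
          rintro l ⟨-, h2⟩
          have h3 : P.st (P.setpm ω (Function.update π i l)) (P.rd (ω i)) = s :=
            (hSTL V P ω (Function.update π i l) π (P.rd (ω i)) fun x hx => by
              rw [Function.update_of_ne]
              rintro rfl
              exact lt_irrefl _ hx).1
          rw [h3] at h2
          have h4 : P.pk (P.setpm ω (Function.update π i l)) s i =
              Pool.Agent.Helper8.Sey.Sys.pick (Function.update π i l i) (P.used s i) := rfl
          rw [h4, Function.update_self] at h2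
          exact h2
        have hm : κ ≤ Nat.card {b // ¬ P.used s i b} := by
          have h2 : Nat.card {a // P.used s i a} + κ ≤ P.D :=
            hMISS V P κ (P.setpm ω π) i (P.rd (ω i)) (hG i hi).1
          have h3 : Nat.card {b // ¬ P.used s i b} + Nat.card {b // P.used s i b} = P.q := by
            rw [Nat.card_eq_fintype_card, Nat.card_eq_fintype_card, Fintype.card_subtype_compl,
              Fintype.card_fin]
            have h4 := Fintype.card_subtype_le (P.used s i)
            rw [Fintype.card_fin] at h4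
            omega
          have h4 := P.D_le_q
          omega
        refine (Pr_mono h1).trans ((hPICK P.q (P.used s i) (Bd P g i) κ hκ1 hm).trans ?_)
        exact div_le_div_of_nonneg_right (by exact_mod_cast card_Bd P g i) hκ0.le
      · have h1 : Pr (fun l : Equiv.Perm (Fin P.q) => hit i (Function.update π i l)) = 0 := by
          rw [← Pr_false (α := Equiv.Perm (Fin P.q))]
          exact Pr_congr fun l => ⟨fun h => h0 h.1, False.elim⟩
        rw [h1]
        positivity
  have hfin := (hRES V P G E (Real.exp (-(18 / c))) (Real.exp_pos _).le hGs).2 hPE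
  calc Real.exp (-(18 / c)) * (Real.exp (-9) / 2) ≤ Real.exp (-(18 / c)) * Pr G :=
        mul_le_mul_of_nonneg_left hPG (Real.exp_pos _).le
    _ ≤ Pr (fun ω : P.Om => G ω ∧ E ω) := hfin
    _ ≤ _ := Pr_mono fun ω h => Tm_of P w ha ω h.2

end Pool.Agent.Helper2.Sey3
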